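import Pool.Agent.Lib.MP_ab8df0_nt.T.Cubic
import Pool.Agent.Lib.MP_ab8df0_nt.P.K12

set_option maxRecDepth 100000

/-! Constants and hypotheses. -/

namespace Pool.Agent.Lib.MP_ab8df0_nt.T.B32

open Pool.Agent.Lib.MP_ab8df0_nt.B Pool.Agent.Lib.MP_ab8df0_nt.P

def vs : Cs := [([0, 1], 1), ([], 1), ([], 1), ([], 1), 
  ([125392, 54770, 23923], 4)]

def M (t0 : ℤ) (k0 : ℕ) : List Hyp := [
  .disc 1 t0 k0,
  .disc 2 1 1,
  .sqr 3 (.mul (.neg (.var 2)) (.mul (.add (.mul (.num 2) (.var 1)) (.var 0)) (.var 4))),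
  .cls (.mul (.neg (.var 2)) (.mul (.add (.mul (.num 2) (.var 1)) (.var 0)) (.var 4))) [],
  .cls (.var 3) []]

def A : List AH := [
  ]

theorem auto : (baseOk 3 vs && A.all (AH.ok FDK12 3 vs)) = true := by decide +kernel

end Pool.Agent.Lib.MP_ab8df0_nt.T.B32

/-! Proof trees. -/

namespace Pool.Agent.Lib.MP_ab8df0_nt.T.B32

open Pool.Agent.Lib.MP_ab8df0_nt.B Pool.Agent.Lib.MP_ab8df0_nt.P

def r0_0 : Tree := .set 4 [[ce (-2) 264 1 1 0x1]] (.piv [] [] (.disc 5 (.disc 6 (.split 5 (.dead 8 10 [[]] [] [ce 0 264 1 1 0x1]) (.split 5 (.split 6 (.dead 8 10 [[]] [] [ce 0 264 5 3 0x6cbb]) (.split 6 (.root 7 0 [] (ce 0 264 5 3 0x647f) (.dead 9 10 [[]] [] [ce 0 264 1 1 0x1]) (.dead 9 10 [[]] [] [ce 0 264 1 1 0x1])) (.dead 8 10 [[]] [] [ce 0 264 5 3 0x4829]))) (.split 6 (.dead 8 10 [[]] [] [ce 0 264 5 3 0x6cbb]) (.split 6 (.dead 8 10 [[]] [] [ce 0 264 5 3 0x6cbb]) (.root 7 0 [] (ce 0 264 1 2 0x3) (.dead 9 10 [[]] [] [ce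 0 264 1 1 0x1]) (.dead 9 10 [[]] [] [ce 0 264 1 1 0x1])))))))))

theorem r0 : run FDK12.ds FDK12.es [[ce 0 264 128 1 0xaaaaaaaaaaaaaaaaaaaaaaaaaaaaaaab]] vs.length (fullH 3 vs (M 0 0) A) r0_0 = true := by
  decide +kernel

end Pool.Agent.Lib.MP_ab8df0_nt.T.B32

/-! The result of the computation. -/

namespace Pool.Agent.Lib.MP_ab8df0_nt.T.B32

open Pool.Agent.Lib.MP_ab8df0_nt.B Pool.Agent.Lib.MP_ab8df0_nt.P

theorem relc {K : Type} [Field K] [NumberField K] {a : K} {pl : List (Place K)} {ph : List (K →+* ℝ)}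
    {w : List (IsDedekindDomain.HeightOneSpectrum (NumberField.RingOfIntegers K))}
    (hP : Pack K FDK12 a pl ph w) : (cval a vs 4 * (286 + (a * ((-173) + (21 * a))))) = 1 := by
  have h : ((cval a vs 4 * (((286 : ℤ) : K) + (cval a vs 0 * (((-173 : ℤ) : K) + (((21 : ℤ) : K) * cval a vs 0))))) + (-(((1 : ℤ) : K)))) = 0 :=
    hP.rel vs (.add (.mul (.var 4) (.add (.num 286) (.mul (.var 0) (.add (.num (-173)) (.mul (.num 21) (.var 0)))))) (.neg (.num 1))) (by decide +kernel)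
  have h0 : cval a vs 0 = a := by simp [cval, vs, ev]
  try rw [h0] at h
  try push_cast at h
  linear_combination h

theorem core {K : Type} [Field K] [NumberField K] {a : K} {pl : List (Place K)} {ph : List (K →+* ℝ)}
    {w : List (IsDedekindDomain.HeightOneSpectrum (NumberField.RingOfIntegers K))}
    (hP : Pack K FDK12 a pl ph w) {G : Prop} (t y B : K)
    (hdisc : Q2 0 (t - ((0 : ℤ) : K)))
    (hy : Q2 1 (y - ((1 : ℤ) : K)))
    (hB : B ^ 2 = ((-(y)) * (((2 * t) + a) * cval a vs 4)))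
    (hclsB : IsSquare ((-(y)) * (((2 * t) + a) * cval a vs 4)))
    (hcls : IsSquare B) :
    G := by
  refine hP.cover (fr := [t, y, B]) (M := M) (cs := [[ce 0 264 128 1 0xaaaaaaaaaaaaaaaaaaaaaaaaaaaaaaab]]) rfl auto
    (l := [(0, 0)]) (by decide) ?_ hdisc fun t0 k0 hq => ?_
  · exact List.forall_mem_cons.2 ⟨⟨_, r0⟩, fun _ h => absurd h List.not_mem_nil⟩
  · refine List.forall_mem_cons.2 ⟨?_, List.forall_mem_cons.2 ⟨?_, List.forall_mem_cons.2 ⟨?_, List.forall_mem_cons.2 ⟨?_, List.forall_mem_cons.2 ⟨?_, fun _ h => absurd h List.not_mem_nil⟩⟩⟩⟩⟩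
    · exact hq
    · exact hy
    · show B ^ 2 = ((-(y)) * (((((2 : ℤ) : K) * t) + a) * cval a vs 4))
      try push_cast
      linear_combination hB
    · exact span_of_isSquare (x := ((-(y)) * (((((2 : ℤ) : K) * t) + a) * cval a vs 4))) ((by push_cast; ring : ((-(y)) * (((((2 : ℤ) : K) * t) + a) * cval a vs 4)) = ((-(y)) * (((2 * t) + a) * cval a vs 4))) ▸ hclsB)
    · exact span_of_isSquare (x := B) ((by push_cast; ring : B = B) ▸ hcls)

end Pool.Agent.Lib.MP_ab8df0_nt.T.B32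

/-! A class of solutions that is empty for local reasons. -/

namespace Pool.Agent.Lib.MP_ab8df0_nt.T.B32

open Pool.Agent.Lib.MP_ab8df0_nt.B Pool.Agent.Lib.MP_ab8df0_nt.P Pool.Agent.Lib.MP_ab8df0_nt.C

theorem main {K : Type} [Field K] [NumberField K] {a : K} {pl : List (Place K)} {ph : List (K →+* ℝ)}
    {w : List (IsDedekindDomain.HeightOneSpectrum (NumberField.RingOfIntegers K))}
    (hP : Pack K FDK12 a pl ph w) : BB32 := by
  rintro x y z - hyz h ⟨u, hu⟩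
  have ht : a ^ 3 = ((12 : ℤ) : K) := by
    have := hP.root
    simp only [FDK12, ev, List.length_cons, List.length_nil] at this
    push_cast at this ⊢
    linear_combination this
  have hy : Odd y := by
    rcases Int.even_or_odd' y with ⟨c, rfl | rfl⟩
    · obtain ⟨x, rfl⟩ : (2 : ℤ) ∣ x :=
        Int.prime_two.dvd_of_dvd_pow (n := 4) ⟨-12 * c ^ 3 - z ^ 3, by linarith⟩
      exact (Int.prime_two.not_isUnit (hyz.isUnit_of_dvd' ⟨c, rfl⟩
        (Int.prime_two.dvd_of_dvd_pow (n := 3) ⟨-4 * x ^ 4 - 6 * c ^ 3, by linarith⟩))).elim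
    · exact ⟨c, rfl⟩
  have hc : m3 12 c12 (m3 12 eps12 eps12) = (286, -173, 21) := by
    simp only [m3, c12, eps12]; norm_num
  have hw : -(2 * (z : K) + y * a) = (286 + a * (-173 + 21 * a)) * e3 a u ^ 4 := by
    have h1 := congrArg (e3 a) hu
    rw [R13.e3_m3 ht, R13.e3_p4 ht, hc] at h1
    simp only [e3] at h1 ⊢
    push_cast at h1
    linear_combination -h1
  have h0 : (y : K) ≠ 0 := ne_of_odd hy
  have h1 : (e3 a u ^ 2) ^ 2 = -(y : K) * ((2 * ((z : K) / y) + a) * cval a vs 4) := by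
    have h2 : -(y : K) * (2 * ((z : K) / y) + a) = -(2 * (z : K) + y * a) := by field_simp
    rw [← mul_assoc, h2, hw]
    linear_combination (-e3 a u ^ 4) * relc hP
  exact core hP _ _ _ (Q2.of_div hy (by simp)) (q2_unit hy) h1 ⟨e3 a u ^ 2, by rw [← h1]; ring⟩
    ⟨e3 a u, sq _⟩

theorem bb : BB32 := by
  obtain ⟨pl, ph, w, hP⟩ := K12.pack
  exact main hP

end Pool.Agent.Lib.MP_ab8df0_nt.T.B32
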